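import Pool.Agent.SGE.Stmts

/-!
# Squad SGE, module COU: the number of leaves
-/

noncomputable section

namespace Pool.Agent.SGE.H25

open Pool.Agent.SGE

variable {V : Type}

theorem isL_cons {S : List (V × List V)} {v p u : V} {l : List V} :
    IsL ((v, p :: l) :: S) u ↔ u = p ∨ IsL S u := by
  constructor
  · rintro ⟨x, hx, h⟩
    rcases List.mem_cons.1 hx with rfl | hx
    · left
      exact (Option.some.inj h).symm
    · exact Or.inr ⟨x, hx, h⟩
  · rintro (rfl | ⟨x, hx, h⟩)
    · exact ⟨_, List.mem_cons_self, rfl⟩
    · exact ⟨x, List.mem_cons_of_mem _ hx, h⟩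

theorem getLast_aux {p q : V} {mid : List V} : (p :: (mid ++ [q])).getLast? = some q := by
  rw [← List.cons_append, List.getLast?_concat]

theorem isR_cons {S : List (V × List V)} {v p q u : V} {mid : List V} :
    IsR ((v, p :: (mid ++ [q])) :: S) u ↔ u = q ∨ IsR S u := by
  constructor
  · rintro ⟨x, hx, h⟩
    rcases List.mem_cons.1 hx with rfl | hx
    · left
      rw [getLast_aux] at h
      exact (Option.some.inj h).symm
    · exact Or.inr ⟨x, hx, h⟩
  · rintro (rfl | ⟨x, hx, h⟩)
    · exact ⟨_, List.mem_cons_self, getLast_aux⟩
    · exact ⟨x, List.mem_cons_of_mem _ hx, h⟩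

/-- the property of consecutive elements of a contour -/
def E2 (a b : V) (S : List (V × List V)) (w w' : V) : Prop :=
  (¬ IsL S w ∧ w ≠ a) ∨ (¬ IsR S w' ∧ w' ≠ b)

theorem chain_imp {R R' : V → V → Prop} {l : List V} (h : l.IsChain R)
    (hR : ∀ x ∈ l.dropLast, ∀ y ∈ l.tail, R x y → R' x y) : l.IsChain R' := by
  induction l with
  | nil => exact List.IsChain.nil
  | cons x l ih =>
    cases l with
    | nil => exact List.IsChain.singleton x
    | cons y l =>
      rw [List.isChain_cons_cons] at h ⊢
      refine ⟨hR x (by simp) y (by simp) h.1, ih h.2 ?_⟩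
      intro x' hx' y' hy'
      apply hR
      · rw [List.dropLast_cons_cons]
        exact List.mem_cons_of_mem _ hx'
      · exact List.mem_of_mem_tail hy'

open Classical in
/-- number of elements which are not left ends -/
def cL (S : List (V × List V)) (l : List V) : ℕ := l.countP (fun u => ¬ IsL S u)

open Classical in
/-- number of elements which are not right ends -/
def cR (S : List (V × List V)) (l : List V) : ℕ := l.countP (fun u => ¬ IsR S u)

theorem cL_cons_of {S : List (V × List V)} {l : List V} {u : V} (h : ¬ IsL S u) :
    cL S (u :: l) = cL S l + 1 := by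
  rw [cL, cL, List.countP_cons_of_pos (by simpa using h)]

theorem cL_cons_le {S : List (V × List V)} {l : List V} {u : V} :
    cL S l ≤ cL S (u :: l) := by
  rw [cL, cL, List.countP_cons]
  exact Nat.le_add_right _ _

theorem cR_cons_of {S : List (V × List V)} {l : List V} {u : V} (h : ¬ IsR S u) :
    cR S (u :: l) = cR S l + 1 := by
  rw [cR, cR, List.countP_cons_of_pos (by simpa using h)]

theorem cR_cons_le {S : List (V × List V)} {l : List V} {u : V} :
    cR S l ≤ cR S (u :: l) := by
  rw [cR, cR, List.countP_cons]
  exact Nat.le_add_right _ _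

/-- the list lemma -/
theorem count_list {a b : V} {S : List (V × List V)} (l : List V) (hl : l.IsChain (E2 a b S))
    (h : ∀ m, l.getLast? = some m → ¬ IsL S m) : l.length ≤ cL S l + cR S l.tail := by
  induction l with
  | nil => exact Nat.zero_le _
  | cons x l ih =>
    cases l with
    | nil =>
      rw [cL_cons_of (h x rfl)]
      simp only [List.length_cons, List.length_nil]
      lia
    | cons y l =>
      rw [List.isChain_cons_cons] at hl
      have h1 := ih hl.2 (fun m hm => h m (by rw [List.getLast?_cons_cons]; exact hm))
      rw [List.tail_cons] at h1 ⊢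
      rw [List.length_cons]
      have h2 := cL_cons_le (S := S) (l := y :: l) (u := x)
      have h3 := cR_cons_le (S := S) (l := l) (u := y)
      rcases hl.1 with h4 | h4
      · rw [cL_cons_of h4.1]
        lia
      · rw [cR_cons_of h4.1]
        lia

theorem count_congr {S S' : List (V × List V)} {l : List V}
    (hL : ∀ u ∈ l, IsL S' u ↔ IsL S u) (hR : ∀ u ∈ l, IsR S' u ↔ IsR S u) :
    cL S' l = cL S l ∧ cR S' l = cR S l := by
  classical
  constructor
  · apply List.countP_congr
    intro u hu
    rw [decide_eq_true_iff, decide_eq_true_iff, hL u hu]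
  · apply List.countP_congr
    intro u hu
    rw [decide_eq_true_iff, decide_eq_true_iff, hR u hu]

theorem cL_append {S : List (V × List V)} {l l' : List V} : cL S (l ++ l') = cL S l + cL S l' :=
  List.countP_append

theorem cR_append {S : List (V × List V)} {l l' : List V} : cR S (l ++ l') = cR S l + cR S l' :=
  List.countP_append

/-- the invariant -/
structure Inv (a b : V) (C : List V) (S : List (V × List V)) (X : List V) : Prop where
  perm : (a :: b :: S.map Prod.fst).Perm (X ++ C)
  le : X.length ≤ cL S X + cR S X
  ch : S = [] ∨ C.IsChain (E2 a b S)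

theorem nd_of_can (hCB : CbStmt) {a b : V} {C : List V} {S : List (V × List V)}
    (h : Can a b C S) : (a :: b :: S.map Prod.fst).Nodup := by
  obtain ⟨hab, -, -, -, hn, hx⟩ := hCB h
  rw [List.nodup_cons, List.nodup_cons]
  refine ⟨?_, ?_, hn⟩
  · intro h1
    rcases List.mem_cons.1 h1 with h1 | h1
    · exact hab h1
    · obtain ⟨x, hx1, hx2⟩ := List.mem_map.1 h1
      exact (hx x hx1).1 hx2
  · intro h1
    obtain ⟨x, hx1, hx2⟩ := List.mem_map.1 h1
    exact (hx x hx1).2.1 hx2

/-- what happens in a step -/
theorem step_aux (hCB : CbStmt) {a b : V} {P Q mid : List V} {p q v : V}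
    {S : List (V × List V)} {X : List V}
    (h : RCan a b (P ++ p :: (mid ++ q :: Q)) S)
    (hs : ∀ m, mid.getLast? = some m → ∃ y ∈ S, y.1 = m ∧ y.2.getLast? = some q)
    (hI : Inv a b (P ++ p :: (mid ++ q :: Q)) S X) :
    (∀ u ∈ mid ++ X, IsL ((v, p :: (mid ++ [q])) :: S) u ↔ IsL S u) ∧
    (∀ u ∈ mid ++ X, IsR ((v, p :: (mid ++ [q])) :: S) u ↔ IsR S u) ∧
    mid.length ≤ cL S mid + cR S mid.tail ∧ (mid ≠ [] → (p :: mid).IsChain (E2 a b S)) := by
  have hnd := nd_of_can hCB h.can
  rw [hI.perm.nodup_iff] at hnd
  have hpm : p ∉ mid ++ X := by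
    intro hp
    rcases List.mem_append.1 hp with hp | hp
    · have h1 := (List.nodup_append.1 (List.nodup_append.1 hnd).2.1).2.1
      rw [List.nodup_cons] at h1
      exact h1.1 (List.mem_append_left _ hp)
    · exact (List.disjoint_of_nodup_append hnd) hp (by simp)
  have hqm : q ∉ mid ++ X := by
    intro hp
    rcases List.mem_append.1 hp with hp | hp
    · have h1 := (List.nodup_append.1 (List.nodup_append.1 hnd).2.1).2.1
      rw [List.nodup_cons] at h1
      exact (List.disjoint_of_nodup_append h1.2) hp (by simp)
    · exact (List.disjoint_of_nodup_append hnd) hp (by simp)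
  have hch : mid ≠ [] → (p :: (mid ++ [q])).IsChain (E2 a b S) := by
    intro hm
    have hS : S ≠ [] := by
      obtain ⟨m, hm1⟩ : ∃ m, mid.getLast? = some m := ⟨_, List.getLast?_eq_some_getLast hm⟩
      obtain ⟨y, hy, -⟩ := hs m hm1
      exact List.ne_nil_of_mem hy
    have h1 := hI.ch.resolve_left hS
    have h2 := (List.isChain_append.1 h1).2.1
    have h3 : p :: (mid ++ q :: Q) = (p :: (mid ++ [q])) ++ Q := by simp
    rw [h3] at h2
    exact (List.isChain_append.1 h2).1
  refine ⟨?_, ?_, ?_, ?_⟩
  · intro u hu
    rw [isL_cons]
    constructor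
    · rintro (rfl | h1)
      · exact absurd hu hpm
      · exact h1
    · exact Or.inr
  · intro u hu
    rw [isR_cons]
    constructor
    · rintro (rfl | h1)
      · exact absurd hu hqm
      · exact h1
    · exact Or.inr
  · by_cases hm : mid = []
    · rw [hm]; exact Nat.zero_le _
    have h1 := hch hm
    have h2 : (mid ++ [q]).IsChain (E2 a b S) := h1.tail
    apply count_list (a := a) (b := b) mid (List.isChain_append.1 h2).1
    intro m hm1
    obtain ⟨y, hy, hy1, hy2⟩ := hs m hm1
    have h3 : E2 a b S m q := (List.isChain_append.1 h2).2.2 m hm1 q rfl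
    rcases h3 with h3 | h3
    · exact h3.1
    · exact absurd ⟨y, hy, hy2⟩ h3.1
  · intro hm
    have h1 := hch hm
    rw [← List.cons_append] at h1
    exact (List.isChain_append.1 h1).1

theorem base_contour {a b : V} {C : List V} (h : RCan a b C []) : C = [a, b] := by
  cases h with
  | base h => rfl

theorem perm_aux {a b v p q : V} {P Q mid L X : List V}
    (h : (a :: b :: L).Perm (X ++ (P ++ p :: (mid ++ q :: Q)))) :
    (a :: b :: v :: L).Perm ((mid ++ X) ++ (P ++ p :: v :: q :: Q)) := by
  have h1 : (a :: b :: v :: L).Perm (v :: a :: b :: L) :=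
    ((List.Perm.swap v b L).cons a).trans (List.Perm.swap v a (b :: L))
  refine h1.trans ((h.cons v).trans ?_)
  rw [← Multiset.coe_eq_coe]
  simp only [← Multiset.cons_coe, ← Multiset.coe_add, ← Multiset.singleton_add]
  abel

theorem inv_exists (hCB : CbStmt) {a b : V} {C : List V} {S : List (V × List V)}
    (h : RCan a b C S) : ∃ X, Inv a b C S X := by
  induction h with
  | base h =>
    exact ⟨[], by simp, Nat.zero_le _, Or.inl rfl⟩
  | @step P Q mid p q v S h ha hb hv hs ih =>
    obtain ⟨X, hI⟩ := ih
    obtain ⟨hL, hR, hlen, -⟩ := step_aux hCB (v := v) h hs hI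
    have hnew : RCan a b (P ++ p :: v :: q :: Q) ((v, p :: (mid ++ [q])) :: S) :=
      RCan.step h ha hb hv hs
    refine ⟨mid ++ X, ?_, ?_, Or.inr ?_⟩
    · exact perm_aux hI.perm
    · obtain ⟨h1, h2⟩ := count_congr hL hR
      rw [h1, h2, cL_append, cR_append, List.length_append]
      have h3 := hI.le
      have h4 : cR S mid.tail ≤ cR S mid := by
        cases mid with
        | nil => exact le_rfl
        | cons x l => exact cR_cons_le
      lia
    · obtain ⟨-, -, -, -, -, hx⟩ := hCB h.can
      obtain ⟨-, hnd, -, -, -, hx'⟩ := hCB hnew.can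
      have hvm := (hx' _ List.mem_cons_self).2.2.1
      have hvp : v ≠ p := by
        rintro rfl
        exact hvm List.mem_cons_self
      have hvq : v ≠ q := by
        rintro rfl
        exact hvm (by simp)
      have hvL : ¬ IsL ((v, p :: (mid ++ [q])) :: S) v := by
        rw [isL_cons]
        rintro (h1 | ⟨x, h1, h2⟩)
        · exact hvp h1
        · rcases (hx x h1).2.2.2.2.2 v (List.mem_of_mem_head? h2) with h3 | h3 | ⟨y, h3, h4⟩
          · exact ha h3
          · exact hb h3
          · exact hv y h3 h4
      have hvR : ¬ IsR ((v, p :: (mid ++ [q])) :: S) v := by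
        rw [isR_cons]
        rintro (h1 | ⟨x, h1, h2⟩)
        · exact hvq h1
        · rcases (hx x h1).2.2.2.2.2 v (List.mem_of_getLast? h2) with h3 | h3 | ⟨y, h3, h4⟩
          · exact ha h3
          · exact hb h3
          · exact hv y h3 h4
      have key : ∀ x y, x ≠ p → y ≠ q → E2 a b S x y →
          E2 a b ((v, p :: (mid ++ [q])) :: S) x y := by
        intro x y hxp hyq h1
        rcases h1 with h1 | h1
        · left
          rw [isL_cons]
          exact ⟨fun h2 => h2.elim hxp h1.1, h1.2⟩
        · right
          rw [isR_cons]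
          exact ⟨fun h2 => h2.elim hyq h1.1, h1.2⟩
      have hnd2 := List.nodup_append.1 hnd
      have hA : (P ++ [p]).IsChain (E2 a b ((v, p :: (mid ++ [q])) :: S)) ∧
          (q :: Q).IsChain (E2 a b ((v, p :: (mid ++ [q])) :: S)) := by
        rcases hI.ch with h0 | h0
        · subst h0
          have h3 : P ++ p :: (mid ++ q :: Q) = [a, b] := base_contour h
          have h4 := congrArg List.length h3
          simp only [List.length_append, List.length_cons, List.length_nil] at h4
          have h5 : P = [] := List.length_eq_zero_iff.1 (by lia)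
          have h6 : Q = [] := List.length_eq_zero_iff.1 (by lia)
          rw [h5, h6]
          exact ⟨List.IsChain.singleton _, List.IsChain.singleton _⟩
        · constructor
          · have h1 : (P ++ [p]).IsChain (E2 a b S) := by
              have h2 : P ++ p :: (mid ++ q :: Q) = (P ++ [p]) ++ (mid ++ q :: Q) := by simp
              rw [h2] at h0
              exact (List.isChain_append.1 h0).1
            apply chain_imp h1
            intro x hx1 y hy1
            apply key
            · rintro rfl
              rw [List.dropLast_concat] at hx1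
              exact hnd2.2.2 _ hx1 _ (by simp) rfl
            · rintro rfl
              have hy2 := List.mem_of_mem_tail hy1
              have h3 : P ++ p :: v :: y :: Q = (P ++ [p]) ++ (v :: y :: Q) := by simp
              rw [h3] at hnd
              exact (List.disjoint_of_nodup_append hnd) hy2 (by simp)
          · have h1 : (q :: Q).IsChain (E2 a b S) := by
              have h2 : P ++ p :: (mid ++ q :: Q) = (P ++ p :: mid) ++ (q :: Q) := by simp
              rw [h2] at h0
              exact (List.isChain_append.1 h0).2.1
            apply chain_imp h1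
            intro x hx1 y hy1
            have hnd3 := hnd2.2.1
            apply key
            · rintro rfl
              rw [List.nodup_cons] at hnd3
              exact hnd3.1 (List.mem_cons_of_mem _ (List.mem_of_mem_dropLast hx1))
            · rintro rfl
              rw [List.nodup_cons, List.nodup_cons, List.nodup_cons] at hnd3
              exact hnd3.2.2.1 hy1
      rw [List.isChain_split, List.isChain_cons_cons, List.isChain_cons_cons]
      exact ⟨hA.1, Or.inr ⟨hvR, hb⟩, Or.inl ⟨hvL, ha⟩, hA.2⟩

theorem cou (hCB : CbStmt) : CouStmt := by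
  intro V _ a b c S h hlen
  classical
  generalize hC : [a, c, b] = C at h
  cases h with
  | base h => simp at hC
  | @step P Q mid p q v S h ha hb hv hs =>
    have hlen2 := congrArg List.length hC
    simp only [List.length_append, List.length_cons, List.length_nil] at hlen2
    have hP : P = [] := List.length_eq_zero_iff.1 (by lia)
    have hQ : Q = [] := List.length_eq_zero_iff.1 (by lia)
    subst hP hQ
    simp only [List.nil_append, List.cons.injEq, and_true] at hC
    obtain ⟨rfl, rfl, rfl⟩ := hC
    obtain ⟨X, hI⟩ := inv_exists hCB h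
    obtain ⟨hL, hR, hl, hch⟩ := step_aux hCB (v := c) h hs hI
    have hnew : RCan a b ([] ++ a :: c :: b :: []) ((c, a :: (mid ++ [b])) :: S) :=
      RCan.step h ha hb hv hs
    have hnd := nd_of_can hCB hnew.can
    have hperm : (((c, a :: (mid ++ [b])) :: S).map Prod.fst).Perm (c :: (mid ++ X)) := by
      have h1 := perm_aux (v := c) hI.perm
      have h2 : ((mid ++ X) ++ ([] ++ a :: c :: b :: [])).Perm (a :: b :: c :: (mid ++ X)) := by
        rw [← Multiset.coe_eq_coe]
        simp only [← Multiset.cons_coe, ← Multiset.coe_add, ← Multiset.singleton_add,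
          List.nil_append]
        simp only [Multiset.coe_nil]
        abel
      have h3 := h1.trans h2
      exact h3.cons_inv.cons_inv
    have hnd2 : (c :: (mid ++ X)).Nodup := hperm.nodup_iff.1 (List.nodup_cons.1
      (List.nodup_cons.1 hnd).2).2
    rw [List.nodup_cons] at hnd2
    have hmid : mid ≠ [] := by
      rintro rfl
      generalize hC2 : [] ++ a :: ([] ++ b :: []) = C2 at h
      cases h with
      | base h =>
        simp at hlen
      | @step P Q mid p q v S h ha hb hv hs =>
        have hlen3 := congrArg List.length hC2
        simp only [List.length_append, List.length_cons, List.length_nil] at hlen3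
        lia
    have hfL : ((((c, a :: (mid ++ [b])) :: S).map Prod.fst).filter
        (fun u => u ≠ c ∧ ¬ IsL ((c, a :: (mid ++ [b])) :: S) u)).length = cL S (mid ++ X) := by
      rw [(hperm.filter _).length_eq, List.filter_cons_of_neg (by simp), cL,
        ← List.countP_eq_length_filter]
      apply List.countP_congr
      intro u hu
      rw [decide_eq_true_iff, decide_eq_true_iff, hL u hu]
      constructor
      · exact fun h => h.2
      · exact fun h => ⟨fun h1 => hnd2.1 (h1 ▸ hu), h⟩
    have hfR : ((((c, a :: (mid ++ [b])) :: S).map Prod.fst).filter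
        (fun u => u ≠ c ∧ ¬ IsR ((c, a :: (mid ++ [b])) :: S) u)).length = cR S (mid ++ X) := by
      rw [(hperm.filter _).length_eq, List.filter_cons_of_neg (by simp), cR,
        ← List.countP_eq_length_filter]
      apply List.countP_congr
      intro u hu
      rw [decide_eq_true_iff, decide_eq_true_iff, hR u hu]
      constructor
      · exact fun h => h.2
      · exact fun h => ⟨fun h1 => hnd2.1 (h1 ▸ hu), h⟩
    have hgain : cR S mid = cR S mid.tail + 1 := by
      have h1 := hch hmid
      cases mid with
      | nil => exact absurd rfl hmid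
      | cons m l =>
        rw [List.isChain_cons_cons] at h1
        rcases h1.1 with h2 | h2
        · exact absurd rfl h2.2
        · rw [cR_cons_of h2.1, List.tail_cons]
    have hlenS : S.length + 1 = mid.length + X.length + 1 := by
      have h1 := hperm.length_eq
      simpa only [List.length_map, List.length_cons, List.length_append] using h1
    have hle := hI.le
    have goal : ((c, a :: (mid ++ [b])) :: S).length ≤ cL S (mid ++ X) + cR S (mid ++ X) := by
      rw [List.length_cons, cL_append, cR_append]
      lia
    rw [← hfL, ← hfR] at goal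
    exact goal

end Pool.Agent.SGE.H25
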